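import Pool.Agent.helper7.AL.Spec

set_option autoImplicit false

namespace Pool.Agent.AL

open Finset Pool.Agent.helper85.FC Pool.Agent.helper11.MK

open Classical in
/-- the pairs of `X × Y` with an entry `z` -/
lemma AVG_pair (L : ℕ) (X Y : Finset ℤ) (hX : #X = L) (hY : #Y = L) (hXY : Disjoint X Y) (z : ℤ) :
    #{p ∈ X ×ˢ Y | p.1 = z ∨ p.2 = z} ≤ L := by
  by_cases hz : z ∈ X
  · have h1 : {p ∈ X ×ˢ Y | p.1 = z ∨ p.2 = z} ⊆ ({z} : Finset ℤ) ×ˢ Y := by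
      intro p hp
      obtain ⟨h2, h3⟩ := mem_filter.mp hp
      obtain ⟨h4, h5⟩ := mem_product.mp h2
      rw [mem_product, mem_singleton]
      rcases h3 with h3 | h3
      · exact ⟨h3, h5⟩
      · exfalso
        rw [← h3] at hz
        exact disjoint_left.mp hXY hz h5
    refine le_trans (card_le_card h1) ?_
    rw [card_product, card_singleton, one_mul, hY]
  · have h1 : {p ∈ X ×ˢ Y | p.1 = z ∨ p.2 = z} ⊆ X ×ˢ ({z} : Finset ℤ) := by
      intro p hp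
      obtain ⟨h2, h3⟩ := mem_filter.mp hp
      obtain ⟨h4, h5⟩ := mem_product.mp h2
      rw [mem_product, mem_singleton]
      rcases h3 with h3 | h3
      · exfalso
        rw [← h3] at hz
        exact hz h4
      · exact ⟨h4, h3⟩
    refine le_trans (card_le_card h1) ?_
    rw [card_product, card_singleton, mul_one, hX]

open Classical in
/-- the 4-tuples with the entries `z`, `z'` -/
lemma AVG_four (L : ℕ) (X Y : Finset ℤ) (hX : #X = L) (hY : #Y = L) (hXY : Disjoint X Y) (z z' : ℤ) :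
    #{t ∈ X ×ˢ Y ×ˢ X ×ˢ Y | (t.1 = z ∨ t.2.1 = z) ∧ (t.2.2.1 = z' ∨ t.2.2.2 = z')} ≤ L ^ 2 := by
  have h1 : #{t ∈ X ×ˢ Y ×ˢ X ×ˢ Y | (t.1 = z ∨ t.2.1 = z) ∧ (t.2.2.1 = z' ∨ t.2.2.2 = z')} ≤
      #({p ∈ X ×ˢ Y | p.1 = z ∨ p.2 = z} ×ˢ {p ∈ X ×ˢ Y | p.1 = z' ∨ p.2 = z'}) := by
    apply card_le_card_of_injOn (fun t => ((t.1, t.2.1), (t.2.2.1, t.2.2.2)))
    · intro t ht
      obtain ⟨h2, h3, h4⟩ := mem_filter.mp (mem_coe.mp ht)
      simp only [mem_product] at h2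
      rw [mem_coe, mem_product, mem_filter, mem_filter, mem_product, mem_product]
      exact ⟨⟨⟨h2.1, h2.2.1⟩, h3⟩, ⟨⟨h2.2.2.1, h2.2.2.2⟩, h4⟩⟩
    · intro t _ t' _ he
      simp only [Prod.mk.injEq] at he
      obtain ⟨⟨e1, e2⟩, e3, e4⟩ := he
      exact Prod.ext e1 (Prod.ext e2 (Prod.ext e3 e4))
  refine le_trans h1 ?_
  rw [card_product, sq]
  exact Nat.mul_le_mul (AVG_pair L X Y hX hY hXY z) (AVG_pair L X Y hX hY hXY z')

theorem AVG : AVG_stmt := by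
  classical
  intro L X Y G ε hX hY hXY hbad
  obtain ⟨S, hS⟩ : ∃ S, S = X ×ˢ Y ×ˢ X ×ˢ Y := ⟨_, rfl⟩
  obtain ⟨Q, hQ⟩ : ∃ Q : ℤ × ℤ × ℤ × ℤ → Prop, Q = fun t =>
    ¬ G t.1 t.2.2.1 ∧ ¬ G t.1 t.2.2.2 ∧ ¬ G t.2.1 t.2.2.1 ∧ ¬ G t.2.1 t.2.2.2 := ⟨_, rfl⟩
  obtain ⟨P, hP⟩ : ∃ P, P = {p ∈ (X ∪ Y) ×ˢ (X ∪ Y) | G p.1 p.2} := ⟨_, rfl⟩
  have hbad' : (#{t ∈ S | Q t} : ℝ) ≤ ε * (L : ℝ) ^ 4 := by
    refine le_trans (le_of_eq ?_) hbad
    have e1 : {t ∈ S | Q t} = {t ∈ X ×ˢ Y ×ˢ X ×ˢ Y |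
        ¬ G t.1 t.2.2.1 ∧ ¬ G t.1 t.2.2.2 ∧ ¬ G t.2.1 t.2.2.1 ∧ ¬ G t.2.1 t.2.2.2} := by
      ext t
      rw [mem_filter, mem_filter, hQ, hS]
    rw [e1]
  have hcard : #S = L ^ 4 := by
    rw [hS, card_product, card_product, card_product, hX, hY]
    ring
  have hsplit : #{t ∈ S | Q t} + #{t ∈ S | ¬ Q t} = #S := card_filter_add_card_filter_not _
  have hgood : #{t ∈ S | ¬ Q t} ≤ L ^ 2 * #P := by
    have hex : ∀ t ∈ {t ∈ S | ¬ Q t}, ∃ p ∈ P, (t.1 = p.1 ∨ t.2.1 = p.1) ∧ (t.2.2.1 = p.2 ∨ t.2.2.2 = p.2) := by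
      intro t ht
      obtain ⟨h1, h2⟩ := mem_filter.mp ht
      rw [hS] at h1
      simp only [mem_product] at h1
      obtain ⟨m1, m2, m3, m4⟩ := h1
      rw [hQ] at h2
      simp only at h2
      by_cases g1 : G t.1 t.2.2.1
      · refine ⟨(t.1, t.2.2.1), ?_, Or.inl rfl, Or.inl rfl⟩
        rw [hP, mem_filter, mem_product]
        exact ⟨⟨mem_union_left _ m1, mem_union_left _ m3⟩, g1⟩
      · by_cases g2 : G t.1 t.2.2.2
        · refine ⟨(t.1, t.2.2.2), ?_, Or.inl rfl, Or.inr rfl⟩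
          rw [hP, mem_filter, mem_product]
          exact ⟨⟨mem_union_left _ m1, mem_union_right _ m4⟩, g2⟩
        · by_cases g3 : G t.2.1 t.2.2.1
          · refine ⟨(t.2.1, t.2.2.1), ?_, Or.inr rfl, Or.inl rfl⟩
            rw [hP, mem_filter, mem_product]
            exact ⟨⟨mem_union_right _ m2, mem_union_left _ m3⟩, g3⟩
          · by_cases g4 : G t.2.1 t.2.2.2
            · refine ⟨(t.2.1, t.2.2.2), ?_, Or.inr rfl, Or.inr rfl⟩
              rw [hP, mem_filter, mem_product]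
              exact ⟨⟨mem_union_right _ m2, mem_union_right _ m4⟩, g4⟩
            · exact absurd ⟨g1, g2, g3, g4⟩ h2
    choose! f hf1 hf2 using hex
    have h1 := card_le_mul_card_image (f := f) {t ∈ S | ¬ Q t} (L ^ 2) (by
      intro p _
      refine le_trans (card_le_card ?_) (AVG_four L X Y hX hY hXY p.1 p.2)
      intro t ht
      obtain ⟨h2, h3⟩ := mem_filter.mp ht
      rw [mem_filter]
      refine ⟨?_, ?_⟩
      · rw [← hS]
        exact (mem_filter.mp h2).1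
      · rw [← h3]
        exact hf2 t h2)
    refine le_trans h1 (Nat.mul_le_mul_left _ (card_le_card ?_))
    intro p hp
    obtain ⟨t, ht, rfl⟩ := mem_image.mp hp
    exact hf1 t ht
  have h2 : ((L : ℝ) ^ 4) ≤ ε * (L : ℝ) ^ 4 + (L : ℝ) ^ 2 * #P := by
    have h3 : (#{t ∈ S | Q t} : ℝ) + #{t ∈ S | ¬ Q t} = (L : ℝ) ^ 4 := by
      have : ((#{t ∈ S | Q t} + #{t ∈ S | ¬ Q t} : ℕ) : ℝ) = ((L ^ 4 : ℕ) : ℝ) := by rw [hsplit, hcard]
      push_cast at this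
      exact this
    have h4 : (#{t ∈ S | ¬ Q t} : ℝ) ≤ (L : ℝ) ^ 2 * #P := by exact_mod_cast hgood
    linarith
  rw [← hP]
  rcases Nat.eq_zero_or_pos L with hL | hL
  · subst hL
    push_cast
    have : (0 : ℝ) ≤ #P := by positivity
    nlinarith
  · have hL0 : (0 : ℝ) < (L : ℝ) ^ 2 := by
      have : (0 : ℝ) < L := by exact_mod_cast hL
      positivity
    have h5 : (L : ℝ) ^ 2 * ((1 - ε) * (L : ℝ) ^ 2) ≤ (L : ℝ) ^ 2 * #P := by
      nlinarith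
    exact le_of_mul_le_mul_left h5 hL0

end Pool.Agent.AL
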