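import Pool.Agent.helper7.AL.Spec

set_option autoImplicit false

namespace Pool.Agent.AL

open Finset Pool.Agent.helper85.FC Pool.Agent.helper11.MK

lemma LCA_cop (p m : ℕ) (h : ℤ) (hp : p.Prime) (hpm : p ∣ m) (hc : IsCoprime h (m : ℤ)) : ¬ (p : ℤ) ∣ h := by
  intro hd
  have h1 : (p : ℤ) ∣ (m : ℤ) := by exact_mod_cast hpm
  have h2 := hc.isUnit_of_dvd' hd h1
  exact (Nat.prime_iff_prime_int.mp hp).not_unit h2

theorem LCA (h : LNV_stmt) : LCA_stmt := by
  classical
  intro k a b X Y u₀ h₁ h₂ hk hX hY hXd hYd hc1 hc2 hd hb ha p hp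
  rcases le_or_gt p (4 * k) with hle | hgt
  · have hpm : p ∣ (4 * k).factorial := Nat.dvd_factorial hp.pos hle
    have hpm' : (p : ℤ) ∣ (((4 * k).factorial : ℕ) : ℤ) := by exact_mod_cast hpm
    have n1 := LCA_cop p _ h₁ hp hpm hc1
    have n2 := LCA_cop p _ (h₁ + u₀) hp hpm hc2
    have hd' := dvd_trans hpm' hd
    have key : ∀ z ∈ X ∪ Y, ¬ (p : ℤ) ∣ h₁ + z := by
      intro z hz hdv
      rcases mem_union.mp hz with hz | hz
      · have h3 := dvd_trans hpm' (hXd z hz)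
        exact n1 ((dvd_add_left h3).mp hdv)
      · have h3 := dvd_trans hpm' (hYd z hz)
        have e : h₁ + z = (h₁ + u₀) + (z - u₀) := by ring
        rw [e] at hdv
        exact n2 ((dvd_add_left h3).mp hdv)
    refine ⟨0, ?_, ?_⟩
    · intro z hz
      have e : (b : ℤ) * ((0 : ℕ) : ℤ) + (h₁ + z) = h₁ + z := by push_cast; ring
      rw [e]
      exact key z hz
    · intro z hz
      have e : (a : ℤ) * ((0 : ℕ) : ℤ) + (h₂ + z) = (h₁ + z) + (h₂ - h₁) := by push_cast; ring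
      rw [e]
      intro hdv
      exact key z hz ((dvd_add_left hd').mp hdv)
  · obtain ⟨n, hn⟩ := h p ((X ∪ Y).image (fun z => (b, h₁ + z)) ∪ (X ∪ Y).image (fun z => (a, h₂ + z))) hp (by
      have c1 : #(X ∪ Y) ≤ k + k := le_trans (card_union_le _ _) (by rw [hX, hY])
      have c2 := card_union_le ((X ∪ Y).image (fun z => (b, h₁ + z))) ((X ∪ Y).image (fun z => (a, h₂ + z)))
      have c3 : #((X ∪ Y).image (fun z => (b, h₁ + z))) ≤ #(X ∪ Y) := card_image_le
      have c4 : #((X ∪ Y).image (fun z => (a, h₂ + z))) ≤ #(X ∪ Y) := card_image_le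
      omega) (by
      intro v hv hdv
      rcases mem_union.mp hv with hv | hv
      · obtain ⟨z, hz, rfl⟩ := mem_image.mp hv
        exact hb p hp hgt hdv z hz
      · obtain ⟨z, hz, rfl⟩ := mem_image.mp hv
        exact ha p hp hgt hdv z hz)
    refine ⟨n, ?_, ?_⟩
    · intro z hz
      exact hn (b, h₁ + z) (mem_union_left _ (mem_image.mpr ⟨z, hz, rfl⟩))
    · intro z hz
      exact hn (a, h₂ + z) (mem_union_right _ (mem_image.mpr ⟨z, hz, rfl⟩))

end Pool.Agent.AL
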