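import Pool.Agent.helper7.AL.Spec

set_option autoImplicit false

namespace Pool.Agent.AL

open Finset Pool.Agent.helper85.FC Pool.Agent.helper11.MK

theorem OMG : OMG_stmt := by
  classical
  intro A
  refine ⟨(A + 1) ^ (A ^ 2 + 1), ?_⟩
  intro m hm
  have h1 : (A : ℝ) ^ (#m.primeFactors) = ∏ _l ∈ m.primeFactors, (A : ℝ) := by
    rw [prod_const]
  have h2 : ∏ _l ∈ m.primeFactors, (A : ℝ) ≤
      ∏ l ∈ m.primeFactors, ((if l ≤ A ^ 2 then ((A : ℝ) + 1) else 1) * √(l : ℝ)) := by
    apply prod_le_prod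
    · intro l _
      positivity
    · intro l hl
      have hl1 : 1 ≤ l := (Nat.prime_of_mem_primeFactors hl).pos
      have hl2 : (1 : ℝ) ≤ √(l : ℝ) := by
        rw [Real.one_le_sqrt]
        exact_mod_cast hl1
      split_ifs with hc
      · have : (0 : ℝ) ≤ A := by positivity
        nlinarith
      · rw [one_mul]
        apply Real.le_sqrt_of_sq_le
        have h3 : A ^ 2 ≤ l := by omega
        exact_mod_cast h3
  have h3 : ∏ l ∈ m.primeFactors, ((if l ≤ A ^ 2 then ((A : ℝ) + 1) else 1) * √(l : ℝ)) =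
      (∏ l ∈ m.primeFactors, (if l ≤ A ^ 2 then ((A : ℝ) + 1) else 1)) * ∏ l ∈ m.primeFactors, √(l : ℝ) :=
    prod_mul_distrib
  have h4 : ∏ l ∈ m.primeFactors, (if l ≤ A ^ 2 then ((A : ℝ) + 1) else 1) ≤ ((A : ℝ) + 1) ^ (A ^ 2 + 1) := by
    rw [prod_ite, prod_const, prod_const_one, mul_one]
    apply pow_le_pow_right₀
    · have : (0 : ℝ) ≤ A := by positivity
      linarith
    · have h5 : (m.primeFactors.filter fun l => l ≤ A ^ 2) ⊆ range (A ^ 2 + 1) := by
        intro l hl
        rw [mem_range]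
        have := (mem_filter.mp hl).2
        omega
      refine le_trans (card_le_card h5) ?_
      rw [card_range]
  have h5 : ∏ l ∈ m.primeFactors, √(l : ℝ) ≤ √(m : ℝ) := by
    have h6 : (∏ l ∈ m.primeFactors, √(l : ℝ)) ^ 2 ≤ m := by
      rw [← prod_pow]
      have h7 : ∀ l ∈ m.primeFactors, √(l : ℝ) ^ 2 = ((l : ℕ) : ℝ) := by
        intro l _
        exact Real.sq_sqrt (by positivity)
      rw [prod_congr rfl h7, ← Nat.cast_prod]
      exact_mod_cast Nat.le_of_dvd hm (Nat.prod_primeFactors_dvd m)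
    exact Real.le_sqrt_of_sq_le h6
  rw [h1]
  refine le_trans h2 ?_
  rw [h3]
  push_cast
  apply mul_le_mul h4 h5
  · apply prod_nonneg
    intro l _
    positivity
  · positivity

end Pool.Agent.AL
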