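import Pool.Agent.helper7.AL.Spec

set_option autoImplicit false

namespace Pool.Agent.AL

open Finset Pool.Agent.helper85.FC Pool.Agent.helper11.MK

lemma PIG_class (k P : ℕ) (hP : 1 ≤ P) (X : Finset ℤ) (hX : #X = k * P) :
    ∃ (α : ℤ) (X' : Finset ℤ), X' ⊆ X ∧ #X' = k ∧ ∀ x ∈ X', (P : ℤ) ∣ x - α := by
  classical
  have hP0 : (0 : ℤ) < P := by exact_mod_cast hP
  have hmaps : ∀ x ∈ X, x % (P : ℤ) ∈ Ico (0 : ℤ) P := by
    intro x _
    rw [mem_Ico]
    exact ⟨Int.emod_nonneg _ hP0.ne', Int.emod_lt_of_pos _ hP0⟩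
  have hne : (Ico (0 : ℤ) P).Nonempty := ⟨0, by rw [mem_Ico]; exact ⟨le_refl _, hP0⟩⟩
  have hcard : #(Ico (0 : ℤ) P) * k ≤ #X := by
    rw [Int.card_Ico, sub_zero, Int.toNat_natCast, hX, Nat.mul_comm]
  obtain ⟨α, -, hα⟩ := exists_le_card_fiber_of_mul_le_card_of_maps_to hmaps hne hcard
  obtain ⟨X', hX', hc⟩ := exists_subset_card_eq hα
  refine ⟨α, X', hX'.trans (filter_subset _ _), hc, ?_⟩
  intro x hx
  have h1 := (mem_filter.mp (hX' hx)).2
  rw [← h1]
  exact Int.dvd_self_sub_emod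

theorem PIG : PIG_stmt := by
  classical
  intro k P hk hP h2 hT
  unfold TwoClusters at hT
  push Not at hT
  obtain ⟨X, Y, hX, hY, hXY, hbad⟩ := hT
  obtain ⟨α, X', hX'1, hX'2, hX'3⟩ := PIG_class k P hP X hX
  obtain ⟨β, Y', hY'1, hY'2, hY'3⟩ := PIG_class k P hP Y hY
  have hinj : Function.Injective (fun x : ℤ => x - α) := fun x y h => by simpa using h
  refine ⟨X'.image (fun x => x - α), Y'.image (fun x => x - α), β - α, ?_, ?_, ?_, ?_, ?_, ?_⟩
  · rw [card_image_of_injective _ hinj, hX'2]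
  · rw [card_image_of_injective _ hinj, hY'2]
  · have hx : X'.Nonempty := by
      rw [← card_pos, hX'2]
      exact hk
    have hy : Y'.Nonempty := by
      rw [← card_pos, hY'2]
      exact hk
    obtain ⟨x, hx⟩ := hx
    obtain ⟨y, hy⟩ := hy
    have h3 := (hXY x (hX'1 hx) y (hY'1 hy)).2
    have h4 := hX'3 x hx
    have h5 := hY'3 y hy
    have h2' : (2 : ℤ) ∣ P := by exact_mod_cast h2
    have h6 := dvd_trans h2' h4
    have h7 := dvd_trans h2' h5
    rw [Int.even_iff] at h3 ⊢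
    omega
  · intro x hx
    obtain ⟨x', hx', rfl⟩ := mem_image.mp hx
    exact hX'3 x' hx'
  · intro y hy
    obtain ⟨y', hy', rfl⟩ := mem_image.mp hy
    have h1 := hY'3 y' hy'
    have e : y' - α - (β - α) = y' - β := by ring
    rw [e]
    exact h1
  · intro x hx y hy
    obtain ⟨x', hx', rfl⟩ := mem_image.mp hx
    obtain ⟨y', hy', rfl⟩ := mem_image.mp hy
    have e : y' - α - (x' - α) = y' - x' := by ring
    rw [e]
    have h1 := hXY x' (hX'1 hx') y' (hY'1 hy')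
    refine ⟨?_, h1.2, hbad x' (hX'1 hx') y' (hY'1 hy')⟩
    intro h0
    exact h1.1 (by omega)

end Pool.Agent.AL
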