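import Pool.Agent.helper7.AL.Spec

set_option autoImplicit false

namespace Pool.Agent.AL

open Finset Pool.Agent.helper85.FC Pool.Agent.helper11.MK

theorem SOL : SOL_stmt := by
  intro a b P g g' c hab hP
  obtain ⟨t, ht⟩ := hP
  obtain ⟨u, v, huv⟩ := (Nat.isCoprime_iff_coprime.mpr hab : IsCoprime (a : ℤ) (b : ℤ))
  refine ⟨g + P * (u * t), g' - P * (v * t), ⟨u * t, by ring⟩, ⟨-(v * t), by ring⟩, ?_⟩
  linear_combination (-1 : ℤ) * ht + (P : ℤ) * t * huv

end Pool.Agent.AL
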